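import Pool.Graph.R_pool_sql_team_seeded_3997aac3.Results.MP_196a0c_al.LocNotFlat

/-!
# Localizing the constant Green functor at an integer not prime to the index is not flat

For every finite group `G`, every subgroup `H` and every integer `n` the localization of the
constant Green functor `ℤ` at `n`, an element at the level `G/H`, is computed; it is not flat if
`n` is not prime to the index of `H`. The definitions of Mackey and Green functors, modules, box
products, flatness and localizations (for an arbitrary group) are those of the library file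
`LocNotFlat`.
-/

namespace Pool.Agent.Results.MP_196a0c_al.CoprimeIndex

open Pool.Agent.Results.MP_196a0c_al.LocNotFlat

theorem finite_dc {P : Type} [Group P] [Finite P] (J K : Subgroup P) :
    Finite (DoubleCoset.Quotient (J : Set P) (K : Set P)) :=
  Finite.of_surjective (DoubleCoset.mk J K) (fun q => ⟨q.out, DoubleCoset.out_eq' _ _ q⟩)

/-- The orbits of `J` on `P ⧸ K` are indexed by the double cosets. -/
theorem card_quot {P : Type} [Group P] [Finite P] (J K : Subgroup P) :
    K.index = ∑ᶠ q : DoubleCoset.Quotient (J : Set P) (K : Set P),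
      (MulAction.stabilizer J ((q.out : P) : P ⧸ K)).index := by
  classical
  let F : P ⧸ K → DoubleCoset.Quotient (J : Set P) (K : Set P) :=
    fun x => DoubleCoset.mk J K x.out
  have hF : ∀ h : P, F (h : P ⧸ K) = DoubleCoset.mk J K h := by
    intro h
    obtain ⟨k, hk⟩ := QuotientGroup.mk_out_eq_mul K h
    change DoubleCoset.mk J K ((h : P ⧸ K).out) = _
    rw [hk, DoubleCoset.eq]
    exact ⟨1, J.one_mem, k⁻¹, K.inv_mem k.2, by simp⟩
  have hfin := finite_dc J K
  have := Fintype.ofFinite (DoubleCoset.Quotient (J : Set P) (K : Set P))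
  rw [finsum_eq_sum_of_fintype, Subgroup.index, ← Nat.card_congr (Equiv.sigmaFiberEquiv F),
    Nat.card_sigma]
  refine Finset.sum_congr rfl fun q _ => ?_
  rw [MulAction.index_stabilizer]
  have : {x : P ⧸ K | F x = q} = MulAction.orbit J ((q.out : P) : P ⧸ K) := by
    ext x
    obtain ⟨h, rfl⟩ := QuotientGroup.mk_surjective x
    rw [Set.mem_ofPred_eq, hF, MulAction.mem_orbit_iff]
    constructor
    · intro e
      have e' : DoubleCoset.mk J K q.out = DoubleCoset.mk J K h := by
        rw [DoubleCoset.out_eq', e]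
      rw [DoubleCoset.eq] at e'
      obtain ⟨j, hj, k, hk, e'⟩ := e'
      refine ⟨⟨j, hj⟩, ?_⟩
      change ((j * q.out : P) : P ⧸ K) = (h : P ⧸ K)
      rw [QuotientGroup.eq, e', inv_mul_cancel_left]
      exact hk
    · rintro ⟨⟨j, hj⟩, e⟩
      change ((j * q.out : P) : P ⧸ K) = (h : P ⧸ K) at e
      rw [QuotientGroup.eq] at e
      rw [← DoubleCoset.out_eq' J K q]
      symm
      rw [DoubleCoset.eq]
      exact ⟨j, hj, _, e, by group⟩
  rw [← this]
  rfl

variable {G : Type} [Group G]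

/-- the intersection `J ∩ g K g⁻¹`, in the form of the double coset formula -/
theorem mem_cj_inf (g : G) (J K : Subgroup G) (x : G) :
    x ∈ cj g (K ⊓ cj g⁻¹ J) ↔ x ∈ J ∧ g⁻¹ * x * g ∈ K := by
  constructor
  · rintro ⟨y, ⟨hy, z, hz, rfl⟩, rfl⟩
    simp only [MulEquiv.toMonoidHom_eq_coe, MonoidHom.coe_coe, MulAut.conj_apply] at hy ⊢
    refine ⟨by simpa [mul_assoc] using hz, by simpa [mul_assoc] using hy⟩
  · rintro ⟨h1, h2⟩
    refine ⟨g⁻¹ * x * g, ⟨h2, x, h1, by simp⟩, by simp [mul_assoc]⟩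

theorem card_cj (g : G) (H : Subgroup G) : Nat.card (cj g H) = Nat.card H :=
  (Nat.card_congr (Subgroup.equivMapOfInjective H _ (MulAut.conj g).injective).toEquiv).symm

theorem card_stab {J K H : Subgroup G} (hJ : J ≤ H) (q : H) :
    Nat.card (MulAction.stabilizer (J.subgroupOf H) ((q : H) : H ⧸ K.subgroupOf H)) =
      Nat.card (cj (q : G) (K ⊓ cj (q : G)⁻¹ J)) := by
  let f : (J.subgroupOf H) →* G := H.subtype.comp (J.subgroupOf H).subtype
  have hf : Function.Injective f := fun a b e => Subtype.ext (Subtype.ext e)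
  rw [Nat.card_congr (Subgroup.equivMapOfInjective _ f hf).toEquiv]
  suffices h : (MulAction.stabilizer (J.subgroupOf H) ((q : H) : H ⧸ K.subgroupOf H)).map f =
      cj (q : G) (K ⊓ cj (q : G)⁻¹ J) by rw [h]
  ext x
  rw [mem_cj_inf]
  constructor
  · rintro ⟨⟨j, hj⟩, hs, rfl⟩
    refine ⟨hj, ?_⟩
    have e : ((j * q : H) : H ⧸ K.subgroupOf H) = (q : H ⧸ K.subgroupOf H) := hs
    rw [QuotientGroup.eq] at e
    have e2 := K.inv_mem (Subgroup.mem_subgroupOf.1 e)
    simpa [f, mul_assoc] using e2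
  · rintro ⟨h1, h2⟩
    refine ⟨⟨⟨x, hJ h1⟩, h1⟩, ?_, rfl⟩
    change ((⟨x, hJ h1⟩ * q : H) : H ⧸ K.subgroupOf H) = (q : H ⧸ K.subgroupOf H)
    rw [QuotientGroup.eq, Subgroup.mem_subgroupOf]
    have := K.inv_mem h2
    simpa [mul_assoc] using this

variable [Finite G]

theorem finite_dc' (J K H : Subgroup G) :
    Finite (DoubleCoset.Quotient (J.subgroupOf H : Set H) (K.subgroupOf H : Set H)) :=
  finite_dc _ _

/-- The first counting formula. -/
theorem count1 {J K H : Subgroup G} (hJ : J ≤ H) :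
    (∑ᶠ q : DoubleCoset.Quotient (J.subgroupOf H : Set H) (K.subgroupOf H : Set H),
      (cj (q.out : G) (K ⊓ cj (q.out : G)⁻¹ J)).relIndex J) = K.relIndex H := by
  rw [Subgroup.relIndex, card_quot (J.subgroupOf H) (K.subgroupOf H)]
  refine finsum_congr fun q => ?_
  have h1 := card_stab (K := K) hJ q.out
  have h2 := Subgroup.card_mul_index
    (MulAction.stabilizer (J.subgroupOf H) ((q.out : H) : H ⧸ K.subgroupOf H))
  have h3 : Nat.card (cj (q.out : G) (K ⊓ cj (q.out : G)⁻¹ J)) *
      (cj (q.out : G) (K ⊓ cj (q.out : G)⁻¹ J)).relIndex J = Nat.card J := by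
    rw [← Subgroup.relIndex_bot_left, Subgroup.relIndex_mul_relIndex _ _ _ bot_le (cj_inf_le _ _ _),
      Subgroup.relIndex_bot_left]
  have h4 : Nat.card (J.subgroupOf H) = Nat.card J :=
    Nat.card_congr (Subgroup.subgroupOfEquivOfLe hJ).toEquiv
  rw [h1, h4] at h2
  have h5 : 0 < Nat.card (cj (q.out : G) (K ⊓ cj (q.out : G)⁻¹ J)) := Nat.card_pos
  exact Nat.eq_of_mul_eq_mul_left h5 (h3.trans h2.symm)

/-- The second counting formula. -/
theorem count2 {J K H : Subgroup G} (hJ : J ≤ H) (hK : K ≤ H) :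
    (∑ᶠ q : DoubleCoset.Quotient (J.subgroupOf H : Set H) (K.subgroupOf H : Set H),
      (K ⊓ cj (q.out : G)⁻¹ J).relIndex K) = J.relIndex H := by
  have := finite_dc' J K H
  have := Fintype.ofFinite
    (DoubleCoset.Quotient (J.subgroupOf H : Set H) (K.subgroupOf H : Set H))
  have h0 := count1 (K := K) hJ
  rw [finsum_eq_sum_of_fintype] at h0 ⊢
  have hJ0 : 0 < Nat.card J := Nat.card_pos
  have key : ∀ q : DoubleCoset.Quotient (J.subgroupOf H : Set H) (K.subgroupOf H : Set H),
      Nat.card J * (K ⊓ cj (q.out : G)⁻¹ J).relIndex K =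
        Nat.card K * (cj (q.out : G) (K ⊓ cj (q.out : G)⁻¹ J)).relIndex J := by
    intro q
    have h3 : Nat.card (cj (q.out : G) (K ⊓ cj (q.out : G)⁻¹ J)) *
        (cj (q.out : G) (K ⊓ cj (q.out : G)⁻¹ J)).relIndex J = Nat.card J := by
      rw [← Subgroup.relIndex_bot_left,
        Subgroup.relIndex_mul_relIndex _ _ _ bot_le (cj_inf_le _ _ _), Subgroup.relIndex_bot_left]
    have h4 : Nat.card (K ⊓ cj (q.out : G)⁻¹ J : Subgroup G) *
        (K ⊓ cj (q.out : G)⁻¹ J).relIndex K = Nat.card K := by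
      rw [← Subgroup.relIndex_bot_left,
        Subgroup.relIndex_mul_relIndex _ _ _ bot_le inf_le_left, Subgroup.relIndex_bot_left]
    rw [card_cj] at h3
    rw [← h3, ← h4]
    ring
  refine Nat.eq_of_mul_eq_mul_left hJ0 ?_
  rw [Finset.mul_sum, Finset.sum_congr rfl fun q _ => key q, ← Finset.mul_sum, h0]
  have h5 : Nat.card K * K.relIndex H = Nat.card H := by
    rw [← Subgroup.relIndex_bot_left, Subgroup.relIndex_mul_relIndex _ _ _ bot_le hK,
      Subgroup.relIndex_bot_left]
  have h6 : Nat.card J * J.relIndex H = Nat.card H := by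
    rw [← Subgroup.relIndex_bot_left, Subgroup.relIndex_mul_relIndex _ _ _ bot_le hJ,
      Subgroup.relIndex_bot_left]
  rw [h5, h6]

omit [Finite G] in
theorem relIndex_cj (g : G) {H K H' K' : Subgroup G} (hH : cj g H = H') (hK : cj g K = K') :
    K'.relIndex H' = K.relIndex H := by
  subst hH hK
  exact Subgroup.relIndex_map_map_of_injective _ _ (MulAut.conj g).injective

/-! ### Quotients of constant Green functors -/

/-- A family of ideals `I K` of `C` such that the quotients `C ⧸ I K` form a quotient of the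
constant Green functor `C`. -/
structure Fam (G : Type) [Group G] (C : Type) [CommRing C] where
  /-- the ideals -/
  I : Subgroup G → Ideal C
  anti : ∀ {K H : Subgroup G}, K ≤ H → I H ≤ I K
  tr_mem : ∀ {K H : Subgroup G}, K ≤ H → ∀ x ∈ I K, (K.relIndex H : C) * x ∈ I H
  conj_le : ∀ (g : G) {H K : Subgroup G}, cj g H = K → I H ≤ I K

section fam

variable {C : Type} [CommRing C]

/-- multiplication by `c` as a map of quotients -/
def qmap (c : C) (I J : Ideal C) (h : ∀ x ∈ I, c * x ∈ J) : C ⧸ I →+ C ⧸ J :=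
  QuotientAddGroup.map I.toAddSubgroup J.toAddSubgroup (AddMonoidHom.mulLeft c) h

theorem qmap_mk (c : C) (I J : Ideal C) (h : ∀ x ∈ I, c * x ∈ J) (x : C) :
    qmap c I J h (Ideal.Quotient.mk I x) = Ideal.Quotient.mk J (c * x) := rfl

/-- The quotient Green functor `K ↦ C ⧸ I K`: restrictions and conjugations are induced by the
identity of `C`, the transfer from `K` to `H` is induced by the multiplication with `[H : K]`. -/
noncomputable def quotGreen (F : Fam G C) : Green G where
  obj K := C ⧸ F.I K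
  res h := Ideal.Quotient.factor (F.anti h)
  tr {K H} h := qmap (K.relIndex H : C) (F.I K) (F.I H) (F.tr_mem h)
  conj g _ _ h := Ideal.Quotient.factor (F.conj_le g h)
  res_add h x y := map_add _ x y
  tr_add h x y := map_add _ x y
  conj_add g _ _ h x y := map_add _ x y
  res_refl H x := by
    obtain ⟨x, rfl⟩ := Ideal.Quotient.mk_surjective x
    rfl
  res_res h₁ h₂ x := by
    obtain ⟨x, rfl⟩ := Ideal.Quotient.mk_surjective x
    rfl
  tr_refl H x := by
    obtain ⟨x, rfl⟩ := Ideal.Quotient.mk_surjective x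
    rw [qmap_mk, Subgroup.relIndex_self, Nat.cast_one, one_mul]
  tr_tr {L K H} h₁ h₂ x := by
    obtain ⟨x, rfl⟩ := Ideal.Quotient.mk_surjective x
    rw [qmap_mk, qmap_mk, qmap_mk, ← Subgroup.relIndex_mul_relIndex L K H h₁ h₂]
    congr 1
    push_cast
    ring
  conj_of_mem _ h x := by
    obtain ⟨x, rfl⟩ := Ideal.Quotient.mk_surjective x
    rfl
  conj_conj g₁ g₂ _ _ _ h₁ h₂ h₃ x := by
    obtain ⟨x, rfl⟩ := Ideal.Quotient.mk_surjective x
    rfl
  conj_res g _ _ _ _ h h' hK hH x := by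
    obtain ⟨x, rfl⟩ := Ideal.Quotient.mk_surjective x
    rfl
  conj_tr g K H K' H' h h' hK hH x := by
    obtain ⟨x, rfl⟩ := Ideal.Quotient.mk_surjective x
    simp only [qmap_mk, Ideal.Quotient.factor_mk]
    rw [relIndex_cj g hH hK]
  mackey {J K H} hJ hK x := by
    obtain ⟨x, rfl⟩ := Ideal.Quotient.mk_surjective x
    simp only [qmap_mk, Ideal.Quotient.factor_mk]
    have := finite_dc' J K H
    have := Fintype.ofFinite
      (DoubleCoset.Quotient (J.subgroupOf H : Set H) (K.subgroupOf H : Set H))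
    have h0 := count1 (K := K) hJ
    rw [finsum_eq_sum_of_fintype] at h0 ⊢
    rw [← map_sum, ← Finset.sum_mul, ← Nat.cast_sum, h0]
  mul x y := x * y
  one K := 1
  mul_add x y z := mul_add x y z
  mul_assoc x y z := mul_assoc x y z
  mul_comm x y := mul_comm x y
  one_mul x := one_mul x
  res_mul h x y := map_mul _ x y
  res_one h := map_one _
  conj_mul g _ _ h x y := map_mul _ x y
  conj_one g _ _ h := map_one _
  frobenius {K H} h x y := by
    obtain ⟨x, rfl⟩ := Ideal.Quotient.mk_surjective x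
    obtain ⟨y, rfl⟩ := Ideal.Quotient.mk_surjective y
    rw [Ideal.Quotient.factor_mk, ← map_mul, qmap_mk, qmap_mk, ← map_mul, mul_assoc]

end fam

/-- The constant Green functor `ℤ`: all values are `ℤ`, restrictions and conjugations are
identities, the transfer from `K` to `H` is the multiplication with the index `[H : K]`. -/
noncomputable def constZ (G : Type) [Group G] [Finite G] : Green G where
  obj _ := ℤ
  res _ x := x
  tr {K H} _ x := (K.relIndex H : ℤ) * x
  conj _ _ _ _ x := x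
  res_add _ _ _ := rfl
  tr_add _ _ _ := mul_add _ _ _
  conj_add _ _ _ _ _ _ := rfl
  res_refl _ _ := rfl
  res_res _ _ _ := rfl
  tr_refl H x := by rw [Subgroup.relIndex_self, Nat.cast_one, one_mul]
  tr_tr {L K H} h₁ h₂ x := by
    rw [← Subgroup.relIndex_mul_relIndex L K H h₁ h₂]
    push_cast
    ring
  conj_of_mem _ _ _ := rfl
  conj_conj _ _ _ _ _ _ _ _ _ := rfl
  conj_res _ _ _ _ _ _ _ _ _ _ := rfl
  conj_tr g K H K' H' h h' hK hH x := by
    rw [relIndex_cj g hH hK]
  mackey {J K H} hJ hK x := by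
    have := finite_dc' J K H
    have := Fintype.ofFinite
      (DoubleCoset.Quotient (J.subgroupOf H : Set H) (K.subgroupOf H : Set H))
    have h0 := count1 (K := K) hJ
    rw [finsum_eq_sum_of_fintype] at h0 ⊢
    rw [← Finset.sum_mul, ← Nat.cast_sum, h0]
  mul x y := (x * y : ℤ)
  one K := (1 : ℤ)
  mul_add x y z := mul_add (x : ℤ) y z
  mul_assoc x y z := mul_assoc (x : ℤ) y z
  mul_comm x y := mul_comm (x : ℤ) y
  one_mul x := one_mul (x : ℤ)
  res_mul _ _ _ := rfl
  res_one _ := rfl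
  conj_mul _ _ _ _ _ _ := rfl
  conj_one _ _ _ _ := rfl
  frobenius {K H} h x y := (mul_assoc (K.relIndex H : ℤ) x y).symm

/-! ### The ideals of the localization -/

/-- `I K` is the ideal of `ℤ` generated by the indices `[K : L]` of the subgroups `L` of `K` which
are conjugate to a subgroup of `H`. -/
def idx (H K : Subgroup G) : Ideal ℤ :=
  Ideal.span {d | ∃ L : Subgroup G, L ≤ K ∧ (∃ g : G, cj g L ≤ H) ∧ d = (L.relIndex K : ℤ)}

theorem idx_anti (H : Subgroup G) {L K : Subgroup G} (h : L ≤ K) : idx H K ≤ idx H L := by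
  rw [idx, Ideal.span_le]
  rintro _ ⟨M, hM, ⟨g, hg⟩, rfl⟩
  have := finite_dc' L M K
  have := Fintype.ofFinite
    (DoubleCoset.Quotient (L.subgroupOf K : Set K) (M.subgroupOf K : Set K))
  have h0 := count1 (K := M) h
  rw [finsum_eq_sum_of_fintype] at h0
  rw [← h0, Nat.cast_sum]
  refine Ideal.sum_mem _ fun q _ => Ideal.subset_span ⟨_, cj_inf_le _ _ _, ⟨g * (q.out : G)⁻¹, ?_⟩,
    rfl⟩
  rintro _ ⟨x, hx, rfl⟩
  rw [SetLike.mem_coe, mem_cj_inf] at hx
  refine hg ⟨_, hx.2, ?_⟩
  simp [mul_assoc]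

omit [Finite G] in
theorem idx_tr (H : Subgroup G) {L K : Subgroup G} (h : L ≤ K) (x : ℤ) (hx : x ∈ idx H L) :
    (L.relIndex K : ℤ) * x ∈ idx H K := by
  have : idx H L ≤ Submodule.comap (LinearMap.mulLeft ℤ (L.relIndex K : ℤ)) (idx H K) := by
    rw [idx, Ideal.span_le]
    rintro _ ⟨M, hM, ⟨g, hg⟩, rfl⟩
    refine Ideal.subset_span ⟨M, hM.trans h, ⟨g, hg⟩, ?_⟩
    rw [← Subgroup.relIndex_mul_relIndex M L K hM h]
    simp [mul_comm]
  exact this hx

omit [Finite G] in
theorem idx_conj (H : Subgroup G) (g : G) {K K' : Subgroup G} (h : cj g K = K') :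
    idx H K ≤ idx H K' := by
  rw [idx, Ideal.span_le]
  rintro _ ⟨M, hM, ⟨a, ha⟩, rfl⟩
  refine Ideal.subset_span ⟨cj g M, ?_, ⟨a * g⁻¹, ?_⟩, ?_⟩
  · rw [← h]
    exact Subgroup.map_mono hM
  · rintro _ ⟨_, ⟨x, hx, rfl⟩, rfl⟩
    refine ha ⟨x, hx, ?_⟩
    simp [mul_assoc]
  · rw [relIndex_cj g h rfl]

omit [Finite G] in
theorem one_mem_idx (H : Subgroup G) {L : Subgroup G} (g : G) (h : cj g L ≤ H) :
    (1 : ℤ) ∈ idx H L :=
  Ideal.subset_span ⟨L, le_rfl, ⟨g, h⟩, by rw [Subgroup.relIndex_self, Nat.cast_one]⟩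

/-! ### Commutative rings in which an integer is invertible up to a nilpotent part -/

/-- arithmetic: `n ^ k` is in the ideal generated by `k` and `n ^ (k + i)` -/
theorem pow_mem (k : ℕ) : 1 ≤ k → ∀ (n : ℤ) (i : ℕ), ∃ a b : ℤ,
    n ^ k = a * k + b * n ^ (k + i) := by
  induction k using Nat.strong_induction_on with
  | _ k ih =>
  intro hk n i
  by_cases hc : IsCoprime (k : ℤ) n
  · obtain ⟨u, v, h⟩ : IsCoprime (k : ℤ) (n ^ (k + i)) := hc.pow_right
    exact ⟨n ^ k * u, n ^ k * v, by linear_combination (-n ^ k) * h⟩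
  · obtain ⟨g, hg1, hgk, hgn⟩ : ∃ g : ℕ, g ≠ 1 ∧ g ∣ k ∧ (g : ℤ) ∣ n :=
      ⟨Int.gcd k n, fun h => hc (Int.isCoprime_iff_gcd_eq_one.2 h),
        Int.natCast_dvd_natCast.1 (Int.gcd_dvd_left _ _), Int.gcd_dvd_right _ _⟩
    obtain ⟨k', rfl⟩ := hgk
    obtain ⟨n', rfl⟩ := hgn
    have hk' : 1 ≤ k' := Nat.pos_of_ne_zero fun h => by simp [h] at hk
    have hg0 : g ≠ 0 := fun h => by simp [h] at hk
    have hg : 2 ≤ g := by omega
    have hlt : k' < g * k' := by nlinarith
    obtain ⟨a, b, h⟩ := ih k' hlt hk' (g * n') i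
    obtain ⟨c, hcc⟩ : ∃ c, g * k' = k' + 1 + c := ⟨g * k' - k' - 1, by omega⟩
    refine ⟨a * n' * (g * n') ^ c, b, ?_⟩
    have e1 : ((g : ℤ) * n') ^ (g * k') = (g * n') ^ k' * ((g * n') * (g * n') ^ c) := by
      rw [hcc]; ring
    have e2 : ((g : ℤ) * n') ^ (g * k' + i) =
        (g * n') ^ (k' + i) * ((g * n') * (g * n') ^ c) := by
      rw [hcc]; ring
    rw [e1, e2, h]
    push_cast
    ring

theorem ring_exists_w {A : Type} [CommRing A] (n q y : A) (m : ℕ) (hq : q = n ^ m * n)
    (h : q = q * q * y) : ∃ w : A, n * w ^ 2 = w ∧ q * (1 - n * w) = 0 := by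
  have he : (q * y) * (q * y) = q * y := by linear_combination (-y) * h
  refine ⟨n ^ m * y * (q * y), ?_, ?_⟩
  · linear_combination (n ^ m * y) * (q * y + 1) * he - n ^ m * y ^ 2 * (q * y) ^ 2 * hq
  · linear_combination h - q * he + (q * y * q * y) * hq

theorem pow_idem {A : Type} [CommRing A] {n w : A} (h1 : n * w ^ 2 = w) (N : ℕ) :
    (n * w) ^ N * (n * w) = n * w := by
  induction N with
  | zero => rw [pow_zero, one_mul]
  | succ N ih => rw [pow_succ, mul_assoc, show n * w * (n * w) = n * w by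
      linear_combination n * h1, ih]

theorem w_unique {A : Type} [CommRing A] {n w w' : A} {N : ℕ} (h1 : n * w ^ 2 = w)
    (h2 : n ^ N * (1 - n * w) = 0) (h1' : n * w' ^ 2 = w') (h2' : n ^ N * (1 - n * w') = 0) :
    w = w' := by
  have a1 : (n * w) * (1 - n * w') = 0 := by
    rw [← pow_idem h1 N]
    linear_combination (w ^ N * (n * w)) * h2'
  have a2 : (n * w') * (1 - n * w) = 0 := by
    rw [← pow_idem h1' N]
    linear_combination (w' ^ N * (n * w')) * h2
  have a3 : n * w = n * w' := by linear_combination a1 - a2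
  linear_combination (-1 : A) * h1 + w * a3 + h1' + w' * a3

/-- The ring `ℤ[1/n]`. -/
abbrev Zn (n : ℤ) : Type := Localization.Away n

section tauR

variable {A : Type} [CommRing A] {n : ℤ} {w : A} (h1 : (n : A) * w ^ 2 = w)

/-- `ℤ[1/n] → A / (1 - n w)` -/
noncomputable def rhoR (h1 : (n : A) * w ^ 2 = w) : Zn n →+* A ⧸ Ideal.span {1 - (n : A) * w} :=
  IsLocalization.Away.lift n (g := Int.castRingHom (A ⧸ Ideal.span {1 - (n : A) * w})) (by
    have : (Ideal.Quotient.mk (Ideal.span {1 - (n : A) * w})) (n * w) = 1 := by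
      rw [← map_one (Ideal.Quotient.mk (Ideal.span {1 - (n : A) * w})), eq_comm, Ideal.Quotient.eq]
      exact Ideal.mem_span_singleton_self _
    rw [map_mul, map_intCast] at this
    exact IsUnit.of_mul_eq_one _ this)

/-- multiplication by `n w` from `A / (1 - n w)` to `A` -/
noncomputable def mulR (h1 : (n : A) * w ^ 2 = w) : A ⧸ Ideal.span {1 - (n : A) * w} →+ A :=
  QuotientAddGroup.lift (Ideal.span {1 - (n : A) * w}).toAddSubgroup
    (AddMonoidHom.mulLeft ((n : A) * w)) (by
      intro x hx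
      obtain ⟨y, rfl⟩ := Ideal.mem_span_singleton'.1 hx
      change (n : A) * w * (y * (1 - n * w)) = 0
      linear_combination (-y * n) * h1)

theorem mulR_mk (x : A) : mulR h1 (Ideal.Quotient.mk _ x) = n * w * x := rfl

/-- the ring homomorphism without unit from `ℤ[1/n]` to `A` with `1 ↦ n w` -/
noncomputable def tauR (h1 : (n : A) * w ^ 2 = w) (a : Zn n) : A := mulR h1 (rhoR h1 a)

theorem tauR_add (a b : Zn n) : tauR h1 (a + b) = tauR h1 a + tauR h1 b := by
  simp only [tauR, map_add]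

theorem tauR_mul (a b : Zn n) : tauR h1 (a * b) = tauR h1 a * tauR h1 b := by
  simp only [tauR, map_mul]
  obtain ⟨x, hx⟩ := Ideal.Quotient.mk_surjective (rhoR h1 a)
  obtain ⟨y, hy⟩ := Ideal.Quotient.mk_surjective (rhoR h1 b)
  rw [← hx, ← hy, ← map_mul, mulR_mk, mulR_mk, mulR_mk]
  linear_combination (-x * y * n) * h1

theorem tauR_int (z : ℤ) : tauR h1 (z : Zn n) = z * (n * w) := by
  rw [tauR, map_intCast]
  have : ((z : ℤ) : A ⧸ Ideal.span {1 - (n : A) * w}) = Ideal.Quotient.mk _ (z : A) :=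
    (map_intCast _ z).symm
  rw [this, mulR_mk, mul_comm]

theorem formula (t : Zn n → A) (t_mul : ∀ x y, t (x * y) = t x * t y)
    (t_int : ∀ z : ℤ, t (z : Zn n) = z * (n * w)) (h1 : (n : A) * w ^ 2 = w) (a : Zn n) (z : ℤ)
    (i : ℕ) (h : a * (n : Zn n) ^ i = z) : t a = z * w ^ i * (n * w) := by
  have b1 : t a * (n : A) ^ i * (n * w) = z * (n * w) := by
    rw [← t_int z, ← h, t_mul]
    have := t_int (n ^ i)
    push_cast at this
    rw [this, mul_assoc]
  have b2 : t a * (n * w) = t a := by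
    have := t_int 1
    rw [Int.cast_one, Int.cast_one, one_mul] at this
    rw [← this, ← t_mul, mul_one]
  calc t a = t a * (n * w) := b2.symm
    _ = t a * ((n * w) ^ i * (n * w)) := by rw [pow_idem h1]
    _ = (t a * (n : A) ^ i * (n * w)) * w ^ i := by rw [mul_pow]; ring
    _ = z * w ^ i * (n * w) := by rw [b1]; ring

theorem exists_frac (a : Zn n) : ∃ (z : ℤ) (i : ℕ), a * (n : Zn n) ^ i = z := by
  obtain ⟨⟨z, ⟨_, i, rfl⟩⟩, h⟩ := IsLocalization.surj (Submonoid.powers n) a
  refine ⟨z, i, ?_⟩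
  simpa using h

theorem tauR_unique (t : Zn n → A) (t_mul : ∀ x y, t (x * y) = t x * t y)
    (t_int : ∀ z : ℤ, t (z : Zn n) = z * (n * w)) (a : Zn n) : t a = tauR h1 a := by
  obtain ⟨z, i, h⟩ := exists_frac a
  rw [formula t t_mul t_int h1 a z i h,
    formula (tauR h1) (tauR_mul h1) (tauR_int h1) h1 a z i h]

theorem tauR_map {A' : Type} [CommRing A'] {w' : A'} (h1' : (n : A') * w' ^ 2 = w') (f : A →+* A')
    (hf : f w = w') (a : Zn n) : f (tauR h1 a) = tauR h1' a :=
  tauR_unique h1' (fun a => f (tauR h1 a)) (fun x y => by rw [tauR_mul, map_mul])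
    (fun z => by rw [tauR_int, map_mul, map_mul, map_intCast, map_intCast, hf]) a

end tauR

/-- The ideal `idx H K + (n ^ |G|)`. -/
noncomputable irreducible_def idn (H : Subgroup G) (n : ℤ) (K : Subgroup G) : Ideal ℤ :=
  idx H K ⊔ Ideal.span {n ^ Nat.card G}

theorem idn_anti (H : Subgroup G) (n : ℤ) {L K : Subgroup G} (h : L ≤ K) :
    idn H n K ≤ idn H n L := by
  rw [idn_def, idn_def]
  exact sup_le_sup_right (idx_anti H h) _

omit [Finite G] in
theorem idn_tr (H : Subgroup G) (n : ℤ) {L K : Subgroup G} (h : L ≤ K) (x : ℤ)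
    (hx : x ∈ idn H n L) : (L.relIndex K : ℤ) * x ∈ idn H n K := by
  rw [idn_def] at hx ⊢
  obtain ⟨y, hy, z, hz, rfl⟩ := Submodule.mem_sup.1 hx
  rw [mul_add]
  exact add_mem (Ideal.mem_sup_left (idx_tr H h y hy))
    (Ideal.mul_mem_left _ _ (Ideal.mem_sup_right hz))

omit [Finite G] in
theorem idn_conj (H : Subgroup G) (n : ℤ) (g : G) {K K' : Subgroup G} (h : cj g K = K') :
    idn H n K ≤ idn H n K' := by
  rw [idn_def, idn_def]
  exact sup_le_sup_right (idx_conj H g h) _

omit [Finite G] in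
theorem one_mem_idn (H : Subgroup G) (n : ℤ) {L : Subgroup G} (g : G) (h : cj g L ≤ H) :
    (1 : ℤ) ∈ idn H n L := by
  rw [idn_def]
  exact Ideal.mem_sup_left (one_mem_idx H g h)

omit [Finite G] in
theorem pow_mem_idn (H : Subgroup G) (n : ℤ) (K : Subgroup G) : n ^ Nat.card G ∈ idn H n K := by
  rw [idn_def]
  exact Ideal.mem_sup_right (Ideal.mem_span_singleton_self _)

/-- The ideals `0 × I K` of `ℤ[1/n] × ℤ`. -/
noncomputable def famS (H : Subgroup G) (n : ℤ) : Fam G (Zn n × ℤ) where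
  I K := Ideal.prod ⊥ (idn H n K)
  anti h := fun x hx => ⟨hx.1, idn_anti H n h hx.2⟩
  tr_mem {K L} h x hx := by
    rw [Ideal.mem_prod] at hx ⊢
    refine ⟨?_, ?_⟩
    · have h1 : x.1 = 0 := hx.1
      simp [h1]
    · have := idn_tr H n h x.2 hx.2
      simpa using this
  conj_le g _ _ h := fun x hx => ⟨hx.1, idn_conj H n g h hx.2⟩

/-- The localization of the constant Green functor `ℤ` at `n ∈ ℤ(G/H)`: its value at `G/K` is
`(ℤ[1/n] × ℤ) ⧸ (0 × I K)`, that is, `ℤ[1/n] × ℤ ⧸ I K`. -/
noncomputable def locS (H : Subgroup G) (n : ℤ) : Green G := quotGreen (famS H n)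

/-- the components of the structure map -/
noncomputable def phiHom (H : Subgroup G) (n : ℤ) (K : Subgroup G) :
    ℤ →+* (Zn n × ℤ) ⧸ (famS H n).I K :=
  (Ideal.Quotient.mk ((famS H n).I K)).comp (Int.castRingHom (Zn n × ℤ))

theorem phi_tr (H : Subgroup G) (n : ℤ) {K L : Subgroup G} (h : K ≤ L) (x : ℤ) :
    phiHom H n L ((K.relIndex L : ℤ) * x) =
      qmap (K.relIndex L : Zn n × ℤ) ((famS H n).I K) ((famS H n).I L) ((famS H n).tr_mem h)
        (phiHom H n K x) := by
  change Ideal.Quotient.mk ((famS H n).I L) (((K.relIndex L : ℤ) * x : ℤ) : Zn n × ℤ) =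
    Ideal.Quotient.mk ((famS H n).I L) ((K.relIndex L : Zn n × ℤ) * ((x : ℤ) : Zn n × ℤ))
  rw [Int.cast_mul, Int.cast_natCast]

/-- The structure map: the integers act on all rings. -/
noncomputable def phi (H : Subgroup G) (n : ℤ) : Green.Hom (constZ G) (locS H n) where
  app K := phiHom H n K
  app_add {K} x y := (phiHom H n K).map_add x y
  app_res _ _ := rfl
  app_tr h x := phi_tr H n h x
  app_conj _ _ _ _ _ := rfl
  app_mul {K} x y := (phiHom H n K).map_mul x y
  app_one K := (phiHom H n K).map_one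

/-! ### The universal property -/

/-- restriction as a ring homomorphism -/
def resRing (T : Green G) {K H : Subgroup G} (h : K ≤ H) : T.obj H →+* T.obj K where
  __ := T.resHom h
  map_one' := T.res_one h
  map_mul' x y := T.res_mul h x y

section univ

variable (T : Green G) (ψ : Green.Hom (constZ G) T)

theorem psi_eq (K : Subgroup G) (z : ℤ) : ψ.app K z = (z : T.obj K) := by
  let f : ℤ →+ T.obj K := AddMonoidHom.mk' (fun z : ℤ => ψ.app K z) (fun a b => ψ.app_add a b)
  have h1 : f = Int.castAddHom (T.obj K) := by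
    apply AddMonoidHom.ext_int
    change ψ.app K (1 : ℤ) = ((1 : ℤ) : T.obj K)
    rw [Int.cast_one]
    exact ψ.app_one K
  exact congrArg (fun f => f z) h1

include ψ in
theorem tr_one {L K : Subgroup G} (h : L ≤ K) : T.tr h (1 : T.obj L) = (L.relIndex K : T.obj K) := by
  have h1 : ψ.app L (1 : ℤ) = 1 := ψ.app_one L
  have h2 := ψ.app_tr h (1 : ℤ)
  rw [h1] at h2
  rw [← h2]
  refine (psi_eq T ψ K ((L.relIndex K : ℤ) * 1)).trans ?_
  push_cast
  ring

variable {H : Subgroup G} {n : ℤ} (hu : T.Unit (ψ.app H n))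

include hu in
theorem unit_H : IsUnit ((n : ℤ) : T.obj H) := by
  obtain ⟨c, hc⟩ := hu
  rw [psi_eq, T.mul_def, T.one_def] at hc
  exact IsUnit.of_mul_eq_one c hc

include hu in
theorem unit_fam {L : Subgroup G} (g : G) (h : cj g L ≤ H) : IsUnit ((n : ℤ) : T.obj L) := by
  have h1 := (unit_H T ψ hu).map (resRing T h)
  rw [map_intCast] at h1
  have h2 : cj g⁻¹ (cj g L) = L := by
    ext x
    constructor
    · rintro ⟨_, ⟨y, hy, rfl⟩, rfl⟩
      simpa [mul_assoc] using hy
    · intro hx
      exact ⟨g * x * g⁻¹, ⟨x, hx, by simp⟩, by simp [mul_assoc]⟩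
  have h3 := h1.map (T.conjHom g⁻¹ h2)
  rwa [map_intCast] at h3

omit [Finite G] in
theorem cj_bot (g : G) : cj g (⊥ : Subgroup G) = ⊥ := Subgroup.map_bot _

include ψ hu in
theorem card_mem (K : Subgroup G) (i : ℕ) :
    ∃ z : T.obj K, ((Nat.card K : ℕ) : T.obj K) = ((n : ℤ) : T.obj K) ^ i * z := by
  have hb : IsUnit ((n : ℤ) : T.obj ⊥) := unit_fam T ψ hu 1 (by rw [cj_bot]; exact bot_le)
  obtain ⟨v, hv⟩ := (hb.pow i).exists_right_inv
  refine ⟨T.tr bot_le v, ?_⟩
  have h1 := tr_one T ψ (bot_le : (⊥ : Subgroup G) ≤ K)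
  rw [Subgroup.relIndex_bot_left] at h1
  rw [← h1, ← hv]
  have h2 := map_zsmul (T.trHom (bot_le : (⊥ : Subgroup G) ≤ K)) (n ^ i) v
  rw [zsmul_eq_mul, zsmul_eq_mul] at h2
  push_cast at h2
  exact h2

include ψ hu in
/-- There is an element which is the inverse of `n` on the part of `T(K)` where `n` is invertible,
and `0` on the part where `n` is nilpotent. -/
theorem exists_w (K : Subgroup G) : ∃ w : T.obj K, ((n : ℤ) : T.obj K) * w ^ 2 = w ∧
    ((n : ℤ) : T.obj K) ^ Nat.card G * (1 - n * w) = 0 := by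
  obtain ⟨z, hz⟩ := card_mem T ψ hu K (Nat.card K + Nat.card G)
  obtain ⟨a, b, hab⟩ := pow_mem (Nat.card K) Nat.card_pos n (Nat.card G)
  obtain ⟨c, hc⟩ : ∃ c, Nat.card G = Nat.card K + c :=
    Nat.exists_eq_add_of_le (Nat.le_of_dvd Nat.card_pos (Subgroup.card_subgroup_dvd_card K))
  obtain ⟨m, hm⟩ : ∃ m, Nat.card G = m + 1 :=
    Nat.exists_eq_add_of_le' (Nat.card_pos (α := G))
  have h1 : ((n : ℤ) : T.obj K) ^ Nat.card K =
      (n : T.obj K) ^ (Nat.card K + Nat.card G) * (a * z + b) := by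
    have h2 := congrArg (Int.cast : ℤ → T.obj K) hab
    push_cast at h2
    rw [hz] at h2
    rw [h2]
    ring
  have h3 : ((n : ℤ) : T.obj K) ^ Nat.card G =
      (n : T.obj K) ^ Nat.card G * (n : T.obj K) ^ Nat.card G * (a * z + b) := by
    calc ((n : ℤ) : T.obj K) ^ Nat.card G = (n : T.obj K) ^ Nat.card K * (n : T.obj K) ^ c := by
          rw [← pow_add, ← hc]
      _ = (n : T.obj K) ^ (Nat.card K + Nat.card G) * (a * z + b) * (n : T.obj K) ^ c := by
          rw [h1]
      _ = ((n : T.obj K) ^ Nat.card K * (n : T.obj K) ^ c) * (n : T.obj K) ^ Nat.card G *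
          (a * z + b) := by
          rw [pow_add]; ring
      _ = _ := by rw [← pow_add, ← hc]
  exact ring_exists_w _ _ _ m (by rw [hm, pow_succ]) h3

/-- the element of `exists_w` -/
noncomputable def ww (K : Subgroup G) : T.obj K := (exists_w T ψ hu K).choose

theorem ww_sq (K : Subgroup G) : ((n : ℤ) : T.obj K) * ww T ψ hu K ^ 2 = ww T ψ hu K :=
  (exists_w T ψ hu K).choose_spec.1

theorem ww_nil (K : Subgroup G) :
    ((n : ℤ) : T.obj K) ^ Nat.card G * (1 - n * ww T ψ hu K) = 0 :=
  (exists_w T ψ hu K).choose_spec.2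

theorem eq_ww (K : Subgroup G) (w : T.obj K) (h1 : ((n : ℤ) : T.obj K) * w ^ 2 = w)
    (h2 : ((n : ℤ) : T.obj K) ^ Nat.card G * (1 - n * w) = 0) : w = ww T ψ hu K :=
  w_unique h1 h2 (ww_sq T ψ hu K) (ww_nil T ψ hu K)

theorem map_ww {K L : Subgroup G} (f : T.obj K →+* T.obj L) : f (ww T ψ hu K) = ww T ψ hu L := by
  refine eq_ww T ψ hu L _ ?_ ?_
  · rw [← map_intCast f, ← map_pow, ← map_mul, ww_sq]
  · rw [← map_intCast f, ← map_pow, ← map_mul, ← map_one f, ← map_sub, ← map_mul, ww_nil, map_zero]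

/-- the map `ℤ[1/n] → T(K)` without unit -/
noncomputable def tau (K : Subgroup G) (a : Zn n) : T.obj K := tauR (ww_sq T ψ hu K) a

theorem tau_add (K : Subgroup G) (a b : Zn n) :
    tau T ψ hu K (a + b) = tau T ψ hu K a + tau T ψ hu K b := tauR_add _ a b

theorem tau_mul (K : Subgroup G) (a b : Zn n) :
    tau T ψ hu K a * tau T ψ hu K b = tau T ψ hu K (a * b) := (tauR_mul _ a b).symm

theorem tau_int (K : Subgroup G) (z : ℤ) :
    tau T ψ hu K (z : Zn n) = z * (n * ww T ψ hu K) := tauR_int _ z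

theorem tau_one (K : Subgroup G) : tau T ψ hu K 1 = n * ww T ψ hu K := by
  have := tau_int T ψ hu K 1
  rwa [Int.cast_one, Int.cast_one, one_mul] at this

theorem map_tau {K L : Subgroup G} (f : T.obj K →+* T.obj L) (a : Zn n) :
    f (tau T ψ hu K a) = tau T ψ hu L a := tauR_map _ _ f (map_ww T ψ hu f) a

theorem res_tau {L K : Subgroup G} (h : L ≤ K) (a : Zn n) :
    T.res h (tau T ψ hu K a) = tau T ψ hu L a := map_tau T ψ hu (resRing T h) a

theorem conj_tau (g : G) {L K : Subgroup G} (h : cj g L = K) (a : Zn n) :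
    T.conj g h (tau T ψ hu L a) = tau T ψ hu K a := map_tau T ψ hu (T.conjHom g h) a

theorem tau_fam {L : Subgroup G} (g : G) (h : cj g L ≤ H) : tau T ψ hu L 1 = 1 := by
  have h1 := (unit_fam T ψ hu g h).pow (Nat.card G)
  have h2 := ww_nil T ψ hu L
  rw [h1.mul_right_eq_zero, sub_eq_zero] at h2
  rw [tau_one, ← h2]

theorem idx_mul {K : Subgroup G} {d : ℤ} (hd : d ∈ idx H K) :
    (d : T.obj K) * (1 - tau T ψ hu K 1) = 0 := by
  induction hd using Submodule.span_induction with
  | mem x hx =>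
    obtain ⟨L, hL, ⟨g, hg⟩, rfl⟩ := hx
    rw [Int.cast_natCast, ← tr_one T ψ hL, ← T.frob, one_mul]
    have h1 : T.res hL (1 - tau T ψ hu K 1) = 0 := by
      have h2 := map_sub (T.resHom hL) 1 (tau T ψ hu K 1)
      refine h2.trans ?_
      change T.res hL 1 - T.res hL (tau T ψ hu K 1) = 0
      rw [res_tau, T.res_one', tau_fam T ψ hu g hg, sub_self]
    rw [h1]
    exact map_zero (T.trHom hL)
  | zero => simp
  | add x y _ _ hx hy => rw [Int.cast_add, add_mul, hx, hy, add_zero]
  | smul a x _ hx => rw [smul_eq_mul, Int.cast_mul, mul_assoc, hx, mul_zero]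

theorem idn_mul {K : Subgroup G} {d : ℤ} (hd : d ∈ idn H n K) :
    (d : T.obj K) * (1 - tau T ψ hu K 1) = 0 := by
  rw [idn_def] at hd
  obtain ⟨y, hy, z, hz, rfl⟩ := Submodule.mem_sup.1 hd
  obtain ⟨c, rfl⟩ := Ideal.mem_span_singleton'.1 hz
  rw [Int.cast_add, add_mul, idx_mul T ψ hu hy, zero_add, tau_one]
  push_cast
  rw [mul_assoc, ww_nil, mul_zero]

/-- the map of the universal property, before passing to the quotient -/
noncomputable def chi0 (K : Subgroup G) : (Zn n × ℤ) →+* T.obj K where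
  toFun x := tau T ψ hu K x.1 + x.2 * (1 - tau T ψ hu K 1)
  map_zero' := by
    have h1 : tau T ψ hu K 0 = 0 := by
      have := tau_add T ψ hu K 0 0
      rw [add_zero] at this
      exact left_eq_add.1 this
    simp [h1]
  map_one' := by simp
  map_add' x y := by
    simp only [Prod.fst_add, Prod.snd_add, tau_add, Int.cast_add]
    ring
  map_mul' x y := by
    have h1 := tau_mul T ψ hu K 1 1
    have h2 := tau_mul T ψ hu K x.1 1
    have h3 := tau_mul T ψ hu K y.1 1
    have h4 := tau_mul T ψ hu K x.1 y.1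
    rw [mul_one] at h1 h2 h3
    simp only [Prod.fst_mul, Prod.snd_mul, Int.cast_mul]
    rw [← h4]
    linear_combination (- (x.2 : T.obj K) * y.2) * h1 + y.2 * h2 + x.2 * h3

/-- the map of the universal property -/
noncomputable def chi (K : Subgroup G) : (Zn n × ℤ) ⧸ (famS H n).I K →+* T.obj K :=
  Ideal.Quotient.lift ((famS H n).I K) (chi0 T ψ hu K) (by
    rintro ⟨a, d⟩ hx
    have h1 : a = 0 := hx.1
    subst h1
    have h0 : tau T ψ hu K 0 = 0 := by
      have := tau_add T ψ hu K 0 0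
      rw [add_zero] at this
      exact left_eq_add.1 this
    change tau T ψ hu K 0 + d * (1 - tau T ψ hu K 1) = 0
    rw [h0, zero_add]
    exact idn_mul T ψ hu hx.2)

theorem chi_mk (K : Subgroup G) (a : Zn n) (z : ℤ) :
    chi T ψ hu K (Ideal.Quotient.mk _ (a, z)) =
      tau T ψ hu K a + z * (1 - tau T ψ hu K 1) := rfl

theorem tr_eps {L K : Subgroup G} (h : L ≤ K) :
    T.tr h (1 - tau T ψ hu L 1) = (L.relIndex K : T.obj K) * (1 - tau T ψ hu K 1) := by
  have h1 : T.res h (1 - tau T ψ hu K 1) = 1 - tau T ψ hu L 1 := by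
    have h2 := map_sub (resRing T h) 1 (tau T ψ hu K 1)
    refine h2.trans ?_
    rw [map_one]
    change 1 - T.res h (tau T ψ hu K 1) = _
    rw [res_tau]
  rw [← h1, ← tr_one T ψ h, ← T.frob, one_mul]

theorem tr_tau {L K : Subgroup G} (h : L ≤ K) (a : Zn n) :
    T.tr h (tau T ψ hu L a) = tau T ψ hu K ((L.relIndex K : Zn n) * a) := by
  have e1 : tau T ψ hu K ((L.relIndex K : ℕ) : Zn n) = (L.relIndex K : T.obj K) * tau T ψ hu K 1 := by
    have := tau_int T ψ hu K (L.relIndex K : ℤ)
    rw [Int.cast_natCast, Int.cast_natCast] at this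
    rw [this, tau_one]
  rw [← res_tau T ψ hu h a, ← one_mul (T.res h (tau T ψ hu K a)), T.frob, tr_one T ψ h, ← tau_mul, e1,
    mul_assoc, tau_mul, one_mul]

/-- The map of the universal property. -/
noncomputable def chiHom : Green.Hom (locS H n) T where
  app K := chi T ψ hu K
  app_add {K} x y := (chi T ψ hu K).map_add x y
  app_res {L K} h x := by
    obtain ⟨⟨a, z⟩, rfl⟩ := Ideal.Quotient.mk_surjective x
    change chi T ψ hu L (Ideal.Quotient.mk _ (a, z)) =
      (resRing T h) (chi T ψ hu K (Ideal.Quotient.mk _ (a, z)))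
    rw [chi_mk, chi_mk, map_add, map_mul, map_intCast, map_sub, map_one]
    change _ = T.res h (tau T ψ hu K a) + z * (1 - T.res h (tau T ψ hu K 1))
    rw [res_tau, res_tau]
  app_tr {L K} h x := by
    obtain ⟨⟨a, z⟩, rfl⟩ := Ideal.Quotient.mk_surjective x
    change chi T ψ hu K (Ideal.Quotient.mk _ ((L.relIndex K : Zn n × ℤ) * (a, z))) =
      (T.trHom h) (chi T ψ hu L (Ideal.Quotient.mk _ (a, z)))
    have h1 : ((L.relIndex K : Zn n × ℤ) * (a, z)) = ((L.relIndex K : Zn n) * a, (L.relIndex K : ℤ) * z) := by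
      ext <;> simp
    rw [h1, chi_mk, chi_mk, map_add]
    change _ = T.tr h (tau T ψ hu L a) + (T.trHom h) (z * (1 - tau T ψ hu L 1))
    have h2 := map_zsmul (T.trHom h) z (1 - tau T ψ hu L 1)
    rw [zsmul_eq_mul, zsmul_eq_mul] at h2
    rw [h2, tr_tau]
    change _ = _ + z * T.tr h (1 - tau T ψ hu L 1)
    rw [tr_eps]
    push_cast
    ring
  app_conj g L K h x := by
    obtain ⟨⟨a, z⟩, rfl⟩ := Ideal.Quotient.mk_surjective x
    change chi T ψ hu K (Ideal.Quotient.mk _ (a, z)) =
      (T.conjHom g h) (chi T ψ hu L (Ideal.Quotient.mk _ (a, z)))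
    rw [chi_mk, chi_mk, map_add, map_mul, map_intCast, map_sub, map_one]
    rw [T.conjHom_apply, T.conjHom_apply, conj_tau, conj_tau]
  app_mul {K} x y := (chi T ψ hu K).map_mul x y
  app_one K := (chi T ψ hu K).map_one

theorem chi_phi (K : Subgroup G) (x : ℤ) :
    (chiHom T ψ hu).app K ((phi H n).app K x) = ψ.app K x := by
  rw [psi_eq T ψ K x]
  have h1 := RingHom.ext_int ((chi T ψ hu K).comp (phiHom H n K)) (Int.castRingHom (T.obj K))
  exact congrArg (fun f => f x) h1

theorem mk_bot (H : Subgroup G) (n : ℤ) (a : Zn n) (z : ℤ) :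
    (Ideal.Quotient.mk ((famS H n).I ⊥) (a, z)) = Ideal.Quotient.mk ((famS H n).I ⊥) (a, 0) := by
  rw [Ideal.Quotient.eq]
  refine ⟨?_, ?_⟩
  · change (a - a) ∈ (⊥ : Ideal (Zn n))
    simp
  · change (z - 0) ∈ idn H n ⊥
    have h1 : (1 : ℤ) ∈ idn H n ⊥ := one_mem_idn H n 1 (by rw [cj_bot]; exact bot_le)
    rw [(Ideal.eq_top_iff_one _).2 h1]
    trivial

/-- a morphism out of the localization, as a ring homomorphism -/
def homRing (f : Green.Hom (locS H n) T) (K : Subgroup G) :
    ((Zn n × ℤ) ⧸ (famS H n).I K) →+* T.obj K where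
  toFun := f.app K
  map_one' := f.app_one K
  map_mul' := fun x y => f.app_mul x y
  map_zero' := by
    have := f.app_add (H := K) 0 0
    rw [add_zero] at this
    exact left_eq_add.1 this
  map_add' := fun x y => f.app_add x y


end univ

section univ

variable (T : Green G) (ψ : Green.Hom (constZ G) T)
variable {H : Subgroup G} {n : ℤ} (hu : T.Unit (ψ.app H n))

theorem exists_u (n : ℤ) : ∃ u : Zn n, (n : Zn n) * u = 1 := by
  have := (IsLocalization.Away.algebraMap_isUnit (S := Zn n) n).exists_right_inv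
  simpa using this

theorem w_fst {n : ℤ} {u : Zn n} (hu1 : (n : Zn n) * u = 1) :
    ((n : ℤ) : Zn n × ℤ) * (u, 0) ^ 2 = (u, 0) := by
  refine Prod.ext ?_ ?_
  · rw [Prod.fst_mul, Prod.pow_fst, Prod.fst_intCast]
    linear_combination u * hu1
  · rw [Prod.snd_mul, Prod.pow_snd]
    simp

theorem hom_tau (f : Green.Hom (locS H n) T) (K : Subgroup G) (a : Zn n) :
    homRing T f K (Ideal.Quotient.mk _ (a, 0)) = tau T ψ hu K a := by
  obtain ⟨u, hu1⟩ := exists_u n
  have hw : homRing T f K (Ideal.Quotient.mk _ (u, 0)) = ww T ψ hu K := by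
    refine eq_ww T ψ hu K _ ?_ ?_
    · have e := congrArg (fun x => homRing T f K (Ideal.Quotient.mk _ x)) (w_fst hu1)
      have e2 : homRing T f K (Ideal.Quotient.mk _ (((n : ℤ) : Zn n × ℤ) * (u, 0) ^ 2)) =
        ((n : ℤ) : T.obj K) * homRing T f K (Ideal.Quotient.mk _ (u, 0)) ^ 2 := by
        rw [map_mul, map_mul, map_pow, map_pow, map_intCast, map_intCast]
      exact e2.symm.trans e
    · have e2 : homRing T f K (Ideal.Quotient.mk _ (((n : ℤ) : Zn n × ℤ) ^ Nat.card G * 
          (1 - ((n : ℤ) : Zn n × ℤ) * (u, 0)))) =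
        ((n : ℤ) : T.obj K) ^ Nat.card G * 
          (1 - ((n : ℤ) : T.obj K) * homRing T f K (Ideal.Quotient.mk _ (u, 0))) := by
        rw [map_mul, map_mul, map_pow, map_pow, map_sub, map_sub, map_mul, map_mul, map_intCast,
          map_intCast, map_one, map_one]
      rw [← e2]
      rw [Ideal.Quotient.eq_zero_iff_mem.2, map_zero]
      refine ⟨?_, ?_⟩
      · change ((n : ℤ) : Zn n × ℤ).1 ^ _ * (1 - ((n : ℤ) : Zn n × ℤ).1 * u) ∈ (⊥ : Ideal (Zn n))
        rw [Prod.fst_intCast, hu1, sub_self, mul_zero]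
        exact Ideal.zero_mem _
      · change ((n : ℤ) : Zn n × ℤ).2 ^ _ * (1 - ((n : ℤ) : Zn n × ℤ).2 * 0) ∈ idn H n K
        rw [mul_zero, sub_zero, mul_one]
        simpa using pow_mem_idn H n K
  refine tauR_unique (ww_sq T ψ hu K) (fun a => homRing T f K (Ideal.Quotient.mk _ (a, 0)))
    (fun x y => ?_) (fun z => ?_) a
  · change homRing T f K _ = homRing T f K _ * homRing T f K _
    rw [← map_mul, ← map_mul, Prod.mk_mul_mk, mul_zero]
  · have e : ((z : ℤ) : Zn n × ℤ) * (((n : ℤ) : Zn n × ℤ) * (u, 0)) = ((z : Zn n), 0) := by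
      refine Prod.ext ?_ ?_
      · rw [Prod.fst_mul, Prod.fst_mul, Prod.fst_intCast, Prod.fst_intCast, hu1, mul_one]
      · rw [Prod.snd_mul, Prod.snd_mul]
        simp
    have e3 := congrArg (fun x => homRing T f K (Ideal.Quotient.mk _ x)) e
    have e2 : homRing T f K (Ideal.Quotient.mk _ (((z : ℤ) : Zn n × ℤ) *
        (((n : ℤ) : Zn n × ℤ) * (u, 0)))) = (z : T.obj K) * (((n : ℤ) : T.obj K) *
          homRing T f K (Ideal.Quotient.mk _ (u, 0))) := by
      rw [map_mul, map_mul, map_mul, map_mul, map_intCast, map_intCast, map_intCast, map_intCast]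
    rw [hw] at e2
    exact e3.symm.trans e2

/-- uniqueness -/
theorem chi_unique (f : Green.Hom (locS H n) T) : f = chiHom T ψ hu := by
  apply Green.Hom.ext
  funext K x
  obtain ⟨⟨a, z⟩, rfl⟩ := Ideal.Quotient.mk_surjective x
  change homRing T f K (Ideal.Quotient.mk _ (a, z)) = chi T ψ hu K (Ideal.Quotient.mk _ (a, z))
  have h1 : ((a, z) : Zn n × ℤ) = (a, 0) + ((z : ℤ) : Zn n × ℤ) * (1 - (1, 0)) := by
    refine Prod.ext ?_ ?_
    · rw [Prod.fst_add, Prod.fst_mul, Prod.fst_sub, Prod.fst_one]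
      simp
    · rw [Prod.snd_add, Prod.snd_mul, Prod.snd_sub, Prod.snd_one]
      simp
  have h2 := congrArg (fun x => homRing T f K (Ideal.Quotient.mk _ x)) h1
  refine h2.trans ?_
  have e2 : homRing T f K (Ideal.Quotient.mk _ ((a, 0) + ((z : ℤ) : Zn n × ℤ) * (1 - (1, 0)))) =
      homRing T f K (Ideal.Quotient.mk _ (a, 0)) + (z : T.obj K) *
        (1 - homRing T f K (Ideal.Quotient.mk _ (1, 0))) := by
    rw [map_add, map_add, map_mul, map_mul, map_sub, map_sub, map_intCast, map_intCast, map_one,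
      map_one]
  refine e2.trans ?_
  rw [hom_tau T ψ hu, hom_tau T ψ hu, chi_mk]

end univ

theorem isLocalization (H : Subgroup G) (n : ℤ) :
    IsLocalizationAt (R := constZ G) (H := H) (n : ℤ) (phi H n) := by
  refine ⟨?_, fun T ψ hu => ⟨chiHom T ψ hu, chi_phi T ψ hu, fun f _ =>
    chi_unique T ψ hu f⟩⟩
  obtain ⟨u, hu⟩ := exists_u n
  have key : (Ideal.Quotient.mk ((famS H n).I H) ((n : ℤ) : Zn n × ℤ) *
      Ideal.Quotient.mk ((famS H n).I H) (u, 0) : (Zn n × ℤ) ⧸ (famS H n).I H) = 1 := by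
    rw [← map_mul, ← map_one (Ideal.Quotient.mk ((famS H n).I H)), Ideal.Quotient.eq]
    refine ⟨?_, ?_⟩
    · change ((((n : ℤ) : Zn n × ℤ) * (u, 0) - 1).1) ∈ (⊥ : Ideal (Zn n))
      rw [Ideal.mem_bot, Prod.fst_sub, Prod.fst_mul, Prod.fst_intCast, Prod.fst_one]
      exact sub_eq_zero.2 hu
    · change ((((n : ℤ) : Zn n × ℤ) * (u, 0) - 1).2) ∈ idn H n H
      have h1 : (1 : ℤ) ∈ idn H n H := one_mem_idn H n 1 (by
        rintro _ ⟨x, hx, rfl⟩
        simpa using hx)
      rw [(Ideal.eq_top_iff_one _).2 h1]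
      trivial
  exact ⟨Ideal.Quotient.mk _ (u, 0), key⟩

/-! ### The modules which show that the localization is not flat -/

/-- A family of subgroups `D K` of `B`, closed under the operations of the module `K ↦ B` over the
constant Green functor `ℤ` in which the transfers are identities and the restriction from `K` to
`L` is the multiplication with `[K : L]`. -/
structure DFam (G : Type) [Group G] (B : Type) [AddCommGroup B] where
  /-- the subgroups -/
  D : Subgroup G → AddSubgroup B
  mono : ∀ {L K : Subgroup G}, L ≤ K → D L ≤ D K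
  res_mem : ∀ {L K : Subgroup G}, L ≤ K → ∀ x ∈ D K, (L.relIndex K) • x ∈ D L
  conj_le : ∀ (g : G) {K L : Subgroup G}, cj g K = L → D K ≤ D L

section dual

variable {B : Type} [AddCommGroup B]

/-- The module of a family of subgroups. -/
noncomputable def dualMod (F : DFam G B) : Mod (constZ G) where
  obj K := F.D K
  res {L K} h x := ⟨(L.relIndex K) • (x : B), F.res_mem h x x.2⟩
  tr h x := ⟨x, F.mono h x.2⟩
  conj g _ _ h x := ⟨x, F.conj_le g h x.2⟩
  res_add h x y := Subtype.ext (smul_add _ _ _)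
  tr_add h x y := rfl
  conj_add g _ _ h x y := rfl
  res_refl H x := Subtype.ext (by
    change (H.relIndex H) • (x : B) = x
    rw [Subgroup.relIndex_self, one_smul])
  res_res {L K H} h₁ h₂ x := Subtype.ext (by
    change (L.relIndex K) • ((K.relIndex H) • (x : B)) = (L.relIndex H) • (x : B)
    rw [smul_smul, Subgroup.relIndex_mul_relIndex L K H h₁ h₂])
  tr_refl H x := rfl
  tr_tr h₁ h₂ x := rfl
  conj_of_mem _ h x := rfl
  conj_conj g₁ g₂ _ _ _ h₁ h₂ h₃ x := rfl
  conj_res g K H K' H' h h' hK hH x := Subtype.ext (by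
    change (K.relIndex H) • (x : B) = (K'.relIndex H') • (x : B)
    rw [relIndex_cj g hH hK])
  conj_tr g _ _ _ _ h h' hK hH x := rfl
  mackey {J K H} hJ hK x := by
    have := finite_dc' J K H
    have := Fintype.ofFinite
      (DoubleCoset.Quotient (J.subgroupOf H : Set H) (K.subgroupOf H : Set H))
    have h0 := count2 (K := K) hJ hK
    rw [finsum_eq_sum_of_fintype] at h0 ⊢
    apply Subtype.ext
    rw [AddSubgroup.val_finsetSum]
    change (J.relIndex H) • (x : B) = ∑ q : DoubleCoset.Quotient (J.subgroupOf H : Set H)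
      (K.subgroupOf H : Set H), ((K ⊓ cj (q.out : G)⁻¹ J).relIndex K) • (x : B)
    rw [← Finset.sum_smul, h0]
  smul (r : ℤ) x := r • x
  smul_add := fun (r : ℤ) x y => smul_add r x y
  add_smul := fun (r s : ℤ) x => add_smul r s x
  one_smul x := one_smul ℤ x
  mul_smul := fun (r s : ℤ) x => mul_smul r s x
  res_smul := fun {L K} h (r : ℤ) x => Subtype.ext (smul_comm (L.relIndex K) r (x : B))
  conj_smul g _ _ h r x := rfl
  tr_smul := fun {L K} h (r : ℤ) x => Subtype.ext (by
    change r • ((L.relIndex K) • (x : B)) = ((L.relIndex K : ℤ) * r) • (x : B)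
    rw [mul_comm, mul_smul, natCast_zsmul])
  smul_tr h r x := rfl

/-- the inclusion of modules -/
noncomputable def incl (F F' : DFam G B) (h : ∀ K, F.D K ≤ F'.D K) :
    Mod.Hom (dualMod F) (dualMod F') where
  app K x := ⟨x.1, h K x.2⟩
  app_add _ _ := rfl
  app_res _ _ := rfl
  app_tr _ _ := rfl
  app_conj _ _ _ _ _ := rfl
  app_smul _ _ := rfl

/-- the zero module -/
def botFam : DFam G B where
  D _ := ⊥
  mono _ := le_rfl
  res_mem _ _ hx := AddSubgroup.nsmul_mem _ hx _
  conj_le _ _ _ _ := le_rfl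

/-- the whole module -/
def topFam : DFam G B where
  D _ := ⊤
  mono _ := le_rfl
  res_mem _ _ _ := trivial
  conj_le _ _ _ _ := le_rfl

/-- the elements killed by the ideal `idn H n K` -/
def torFam (H : Subgroup G) (n : ℤ) : DFam G B where
  D K :=
    { carrier := {x | ∀ d ∈ idn H n K, d • x = 0}
      zero_mem' := fun d _ => smul_zero d
      add_mem' := fun {x y} hx hy d hd => by rw [smul_add, hx d hd, hy d hd, add_zero]
      neg_mem' := fun {x} hx d hd => by rw [smul_neg, hx d hd, neg_zero] }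
  mono h x hx d hd := hx d (idn_anti H n h hd)
  res_mem {L K} h x hx d hd := by
    rw [← natCast_zsmul, smul_smul, mul_comm]
    exact hx _ (idn_tr H n h d hd)
  conj_le g K L h x hx d hd := by
    refine hx d (idn_conj H n g⁻¹ ?_ hd)
    rw [← h]
    ext y
    constructor
    · rintro ⟨_, ⟨z, hz, rfl⟩, rfl⟩
      simpa [mul_assoc] using hz
    · intro hy
      exact ⟨g * y * g⁻¹, ⟨y, hy, by simp⟩, by simp [mul_assoc]⟩

theorem zero_of_bot {K : Subgroup G} (x : (dualMod (botFam (G := G) (B := B))).obj K) : x = 0 :=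
  Subtype.ext x.2

/-- the zero map to the zero module -/
noncomputable def zeroTo (M : Mod (constZ G)) : Mod.Hom M (dualMod (botFam (G := G) (B := B))) where
  app _ _ := 0
  app_add _ _ := (add_zero _).symm
  app_res _ _ := (zero_of_bot _).symm
  app_tr _ _ := (zero_of_bot _).symm
  app_conj _ _ _ _ _ := (zero_of_bot _).symm
  app_smul _ _ := (zero_of_bot _).symm

/-- the zero pairing with values in the zero module -/
noncomputable def zeroPair (M N : Mod (constZ G)) :
    Pairing M N (dualMod (botFam (G := G) (B := B))) where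
  app _ _ := 0
  add_app _ _ _ := (zero_of_bot _).symm
  app_add _ _ _ := (zero_of_bot _).symm
  smul_left _ _ _ := (zero_of_bot _).symm
  smul_right _ _ _ := (zero_of_bot _).symm
  res_app _ _ _ := zero_of_bot _
  conj_app _ _ _ _ _ _ := zero_of_bot _
  tr_left _ _ _ := zero_of_bot _
  tr_right _ _ _ := zero_of_bot _

/-- the zero map from the zero module -/
noncomputable def zeroFrom (M : Mod (constZ G)) :
    Mod.Hom (dualMod (botFam (G := G) (B := B))) M where
  app _ _ := 0
  app_add _ _ := (add_zero _).symm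
  app_res h _ := (map_zero (M.resHom h)).symm
  app_tr h _ := (map_zero (M.trHom h)).symm
  app_conj g _ _ h _ := (map_zero (M.conjAdd g h)).symm
  app_smul r _ := (map_zero (M.act r)).symm

/-- If all pairings with `M` and `N` vanish, then the box product is zero. -/
theorem isBox_zero (M N : Mod (constZ G))
    (h : ∀ (Q : Mod (constZ G)) (η : Pairing M N Q) (K : Subgroup G) (x : M.obj K) (y : N.obj K),
      η.app x y = 0) : (zeroPair (B := B) M N).IsBox := by
  intro Q η
  refine ⟨zeroFrom Q, fun K x y => (h Q η K x y).symm, fun f _ => ?_⟩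
  apply Mod.Hom.ext
  funext K x
  rw [zero_of_bot x]
  exact map_zero (f.hom K)

theorem pair_zero {M N Q : Mod (constZ G)} (η : Pairing M N Q) {K : Subgroup G} (x : M.obj K) :
    η.app x 0 = 0 := map_zero (η.hom x)

variable (B) in
/-- the action of the value at `G/K` of the localization -/
noncomputable def act (H : Subgroup G) (n : ℤ) (K : Subgroup G) :
    (Zn n × ℤ) ⧸ (famS H n).I K →+
      ((torFam (B := B) H n).D K →+ (torFam (B := B) H n).D K) :=
  QuotientAddGroup.lift ((famS H n).I K).toAddSubgroup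
    ((smulAddHom ℤ ((torFam (B := B) H n).D K)).comp (AddMonoidHom.snd (Zn n) ℤ)) (by
      rintro ⟨a, d⟩ hx
      ext x
      exact x.2 d hx.2)

theorem act_mk (H : Subgroup G) (n : ℤ) (K : Subgroup G) (a : Zn n) (z : ℤ)
    (x : (torFam (B := B) H n).D K) :
    act B H n K (Ideal.Quotient.mk _ (a, z)) x = z • x := rfl

theorem act_add (H : Subgroup G) (n : ℤ) (K : Subgroup G) (s s' : (Zn n × ℤ) ⧸ (famS H n).I K)
    (x : (torFam (B := B) H n).D K) : act B H n K (s + s') x = act B H n K s x + act B H n K s' x := by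
  rw [map_add]
  rfl

theorem act_smul (H : Subgroup G) (n : ℤ) (K : Subgroup G) (r : ℤ)
    (s : (Zn n × ℤ) ⧸ (famS H n).I K) (x : (torFam (B := B) H n).D K) :
    act B H n K (phiHom H n K r * s) x = r • act B H n K s x := by
  obtain ⟨⟨a, z⟩, rfl⟩ := Ideal.Quotient.mk_surjective s
  change act B H n K (Ideal.Quotient.mk _ ((r : Zn n × ℤ) * (a, z))) x = _
  rw [show ((r : Zn n × ℤ) * (a, z)) = (r * a, r * z) by ext <;> simp, act_mk, mul_smul]
  rfl

theorem act_smul' (H : Subgroup G) (n : ℤ) (K : Subgroup G) (r : ℤ)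
    (s : (Zn n × ℤ) ⧸ (famS H n).I K) (x : (torFam (B := B) H n).D K) :
    act B H n K s (r • x) = r • act B H n K s x := by
  obtain ⟨⟨a, z⟩, rfl⟩ := Ideal.Quotient.mk_surjective s
  exact smul_comm z r x

theorem act_tr (H : Subgroup G) (n : ℤ) {L K : Subgroup G} (h : L ≤ K)
    (s : (Zn n × ℤ) ⧸ (famS H n).I L) (x : (torFam (B := B) H n).D K) :
    (act B H n L s (⟨(L.relIndex K) • (x : B), (torFam (B := B) H n).res_mem h x x.2⟩ :
      (torFam (B := B) H n).D L) : B) =
      act B H n K (qmap (L.relIndex K : Zn n × ℤ) ((famS H n).I L) ((famS H n).I K)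
        ((famS H n).tr_mem h) s) x := by
  obtain ⟨⟨a, z⟩, rfl⟩ := Ideal.Quotient.mk_surjective s
  rw [qmap_mk, show ((L.relIndex K : Zn n × ℤ) * (a, z)) =
    (L.relIndex K * a, (L.relIndex K : ℤ) * z) by ext <;> simp, act_mk, act_mk]
  change z • ((L.relIndex K) • (x : B)) = ((L.relIndex K : ℤ) * z) • (x : B)
  rw [mul_comm, mul_smul, natCast_zsmul]

theorem act_res (H : Subgroup G) (n : ℤ) {L K : Subgroup G} (h : L ≤ K)
    (s : (Zn n × ℤ) ⧸ (famS H n).I K) (x : (torFam (B := B) H n).D K) :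
    (L.relIndex K) • (act B H n K s x : B) =
      act B H n L (Ideal.Quotient.factor ((famS H n).anti h) s)
        (⟨(L.relIndex K) • (x : B), (torFam (B := B) H n).res_mem h x x.2⟩ :
          (torFam (B := B) H n).D L) := by
  obtain ⟨⟨a, z⟩, rfl⟩ := Ideal.Quotient.mk_surjective s
  exact smul_comm (L.relIndex K) z (x : B)

/-- The pairing of the localization with the module of `torFam`. -/
noncomputable def torPair (H : Subgroup G) (n : ℤ) :
    Pairing (phi H n).toMod (dualMod (torFam (B := B) H n)) (dualMod (torFam (B := B) H n)) where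
  app {K} s x := act B H n K s x
  add_app {K} s s' x := act_add H n K s s' x
  app_add {K} s x y := (act B H n K s).map_add x y
  smul_left {K} r s x := act_smul H n K r s x
  smul_right {K} r s x := act_smul' H n K r s x
  res_app {L K} h s x := Subtype.ext (act_res H n h s x)
  conj_app g L K h s x := by
    obtain ⟨⟨a, z⟩, rfl⟩ := Ideal.Quotient.mk_surjective s
    rfl
  tr_left {L K} h s x := Subtype.ext (act_tr H n h s x)
  tr_right h s x := by
    obtain ⟨⟨a, z⟩, rfl⟩ := Ideal.Quotient.mk_surjective s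
    rfl

theorem pair_mk_zero (H : Subgroup G) (n : ℤ) {N Q : Mod (constZ G)}
    (hN : ∀ (K : Subgroup G) (x : N.obj K), N.smul (n : ℤ) x = 0)
    (η : Pairing (phi H n).toMod N Q) (K : Subgroup G) (a : Zn n) (x : N.obj K) :
    η.app (Ideal.Quotient.mk ((famS H n).I K) (a, 0)) x = 0 := by
  obtain ⟨u, hu⟩ := exists_u n
  have e1 : (Ideal.Quotient.mk ((famS H n).I K) (a, 0)) =
      phiHom H n K n * Ideal.Quotient.mk ((famS H n).I K) (u * a, 0) := by
    change _ = Ideal.Quotient.mk ((famS H n).I K) ((n : ℤ) : Zn n × ℤ) * _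
    rw [← map_mul]
    congr 1
    ext
    · change a = (n : Zn n) * (u * a)
      linear_combination (-a) * hu
    · simp
  rw [e1]
  refine (η.smul_left n _ x).trans ((η.smul_right n _ x).symm.trans ?_)
  rw [hN K x]
  exact pair_zero η _

theorem mk_split (H : Subgroup G) (n : ℤ) (K : Subgroup G) (a : Zn n) (z : ℤ) :
    (Ideal.Quotient.mk ((famS H n).I K) (a, z)) = phiHom H n K z * 1 +
      Ideal.Quotient.mk ((famS H n).I K) (a - z, 0) := by
  rw [mul_one]
  change _ = Ideal.Quotient.mk ((famS H n).I K) ((z : ℤ) : Zn n × ℤ) + _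
  rw [← map_add]
  congr 1
  ext <;> simp

theorem pair_key (H : Subgroup G) (n : ℤ) (hB : ∀ x : B, n • x = 0)
    {Q : Mod (constZ G)} (η : Pairing (phi H n).toMod (dualMod (torFam (B := B) H n)) Q)
    (K : Subgroup G) (s : (Zn n × ℤ) ⧸ (famS H n).I K) (x : (torFam (B := B) H n).D K) :
    η.app s x = η.app ((locS H n).one K) (act B H n K s x) := by
  obtain ⟨⟨a, z⟩, rfl⟩ := Ideal.Quotient.mk_surjective s
  rw [act_mk, mk_split]
  refine (η.add_app _ _ x).trans ?_
  have h0 := pair_mk_zero H n (N := dualMod (torFam (B := B) H n))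
    (fun K (x : (torFam (B := B) H n).D K) => Subtype.ext (hB x.1)) η K (a - z) x
  rw [h0, add_zero]
  refine (η.smul_left (z : ℤ) ((locS H n).one K) x).trans ?_
  exact (η.smul_right (z : ℤ) ((locS H n).one K) x).symm

theorem act_one (H : Subgroup G) (n : ℤ) (K : Subgroup G) (x : (torFam (B := B) H n).D K) :
    act B H n K 1 x = x := by
  have h1 : (1 : (Zn n × ℤ) ⧸ (famS H n).I K) = Ideal.Quotient.mk _ ((1 : Zn n), (1 : ℤ)) := rfl
  rw [h1, act_mk, one_smul]

theorem torPair_isBox (H : Subgroup G) (n : ℤ) (hB : ∀ x : B, n • x = 0) :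
    (torPair (B := B) H n).IsBox := by
  intro Q η
  refine ⟨
    { app := fun K x => η.app ((locS H n).one K) x
      app_add := fun x y => η.app_add _ x y
      app_res := fun {L K} h x => by
        have h1 := η.res_app h ((locS H n).one K) x
        have h2 : (phi H n).toMod.res h ((locS H n).one K) = (locS H n).one L :=
          (locS H n).res_one h
        rw [h2] at h1
        exact h1.symm
      app_tr := fun {L K} h x => by
        have h1 := η.tr_right h ((locS H n).one K) x
        have h2 : (phi H n).toMod.res h ((locS H n).one K) = (locS H n).one L :=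
          (locS H n).res_one h
        rw [h2] at h1
        exact h1.symm
      app_conj := fun g {L K} h x => by
        have h1 := η.conj_app g h ((locS H n).one L) x
        have h2 : (phi H n).toMod.conj g h ((locS H n).one L) = (locS H n).one K :=
          (locS H n).conj_one g h
        rw [h2] at h1
        exact h1.symm
      app_smul := fun r x => η.smul_right r _ x }, fun K s x => (pair_key H n hB η K s x).symm,
    fun f hf => ?_⟩
  apply Mod.Hom.ext
  funext K x
  have h1 := hf K ((locS H n).one K) x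
  have h2 : (torPair (B := B) H n).app ((locS H n).one K) x = x := act_one H n K x
  rw [h2] at h1
  exact h1

end dual

/-- The localization of the constant Green functor at `n` is not flat if a prime divides `n` and
the index of `H`. -/
theorem not_flat (H : Subgroup G) (n : ℤ) (p : ℕ) (hp : p.Prime) (hpn : (p : ℤ) ∣ n)
    (hpH : p ∣ H.index) : ¬ Flat (phi H n).toMod := by
  intro hflat
  have hB : ∀ x : ZMod p, n • x = 0 := by
    intro x
    rw [zsmul_eq_mul, (ZMod.intCast_zmod_eq_zero_iff_dvd n p).2 hpn, zero_mul]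
  let N₂ := dualMod (torFam (G := G) (B := ZMod p) H n)
  let N₃ := dualMod (topFam (G := G) (B := ZMod p))
  let N₁ := dualMod (botFam (G := G) (B := ZMod p))
  let f : Mod.Hom N₁ N₂ := incl _ _ fun K => bot_le
  let g : Mod.Hom N₂ N₃ := incl _ _ fun K => le_top
  have hfg : ExactSeq f g := by
    intro K y
    constructor
    · intro hy
      refine ⟨⟨y.1, congrArg Subtype.val hy⟩, rfl⟩
    · rintro ⟨x, rfl⟩
      rw [zero_of_bot x]
      rfl
  have hbox1 : (zeroPair (B := ZMod p) (phi H n).toMod N₁).IsBox :=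
    isBox_zero _ _ fun Q η K x y => by rw [zero_of_bot y, pair_zero]
  have hbox3 : (zeroPair (B := ZMod p) (phi H n).toMod N₃).IsBox := by
    refine isBox_zero _ _ fun Q η K x y => ?_
    have h0 : ∀ (s : (Zn n × ℤ) ⧸ (famS H n).I ⊥) (y : N₃.obj ⊥), η.app s y = 0 := by
      intro s y
      obtain ⟨⟨a, z⟩, rfl⟩ := Ideal.Quotient.mk_surjective s
      rw [mk_bot]
      exact pair_mk_zero H n (N := dualMod (topFam (G := G) (B := ZMod p)))
        (fun K (x : (topFam (G := G) (B := ZMod p)).D K) => Subtype.ext (hB x.1)) η ⊥ a y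
    have h1 := η.tr_right (bot_le : (⊥ : Subgroup G) ≤ K) x (⟨y.1, trivial⟩ : N₃.obj ⊥)
    have h2 : η.app ((phi H n).toMod.res (bot_le : (⊥ : Subgroup G) ≤ K) x)
        (⟨y.1, trivial⟩ : N₃.obj ⊥) = 0 := h0 _ _
    rw [h2] at h1
    refine Eq.trans ?_ (h1.symm.trans (map_zero (Q.trHom bot_le)))
    rfl
  have hex := hflat N₁ N₂ N₃ f g hfg _ _ _ _ _ _ hbox1 (torPair_isBox (B := ZMod p) H n hB) hbox3
    f (zeroTo N₂) (fun K s x => by
      rw [zero_of_bot x]
      exact (map_zero (act (ZMod p) H n K s)).symm) (fun K s x => rfl)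
  have hmem : (1 : ZMod p) ∈ (torFam (G := G) (B := ZMod p) H n).D ⊤ := by
    intro d hd
    have h1 : idn H n ⊤ ≤ Ideal.span {(p : ℤ)} := by
      rw [idn_def]
      refine sup_le ?_ ?_
      · rw [idx, Ideal.span_le]
        rintro _ ⟨L, -, ⟨g, hg⟩, rfl⟩
        rw [SetLike.mem_coe, Ideal.mem_span_singleton]
        have h2 : (⊤ : Subgroup G) = cj g ⊤ := by
          ext x
          exact ⟨fun _ => ⟨g⁻¹ * x * g, trivial, by simp [mul_assoc]⟩, fun _ => trivial⟩
        rw [← relIndex_cj g h2.symm rfl, Subgroup.relIndex_top_right]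
        exact Int.natCast_dvd_natCast.2 (hpH.trans (Subgroup.index_dvd_of_le hg))
      · rw [Ideal.span_le, Set.singleton_subset_iff, SetLike.mem_coe, Ideal.mem_span_singleton]
        exact hpn.trans (dvd_pow_self n Nat.card_pos.ne')
    have h3 := Ideal.mem_span_singleton.1 (h1 hd)
    rw [zsmul_eq_mul, mul_one]
    exact (ZMod.intCast_zmod_eq_zero_iff_dvd d p).2 h3
  obtain ⟨x, hx⟩ := (hex ⊤ (⟨1, hmem⟩ : N₂.obj ⊤)).1 rfl
  rw [zero_of_bot x] at hx
  have h1 : (0 : ZMod p) = 1 := congrArg Subtype.val hx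
  have : Fact p.Prime := ⟨hp⟩
  exact zero_ne_one h1

/-- **Localizations of the constant Green functor exist and are not flat if `n` is not prime to
the index.** Let `G` be a finite group, `H` a subgroup and `n` an integer. Let `R` be the constant
Green functor `ℤ` of `G` and `b = n` in `R(G/H) = ℤ`. Then the localization `R[b⁻¹]` exists, and it
is not flat as an `R`-module if `n` and the index of `H` have a common prime divisor. -/
theorem result (G : Type) [Group G] [Finite G] (H : Subgroup G) (n : ℤ) :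
    ∃ (S : Green G) (φ : Green.Hom (constZ G) S),
      IsLocalizationAt (R := constZ G) (H := H) n φ ∧
      (¬ IsCoprime n (H.index : ℤ) → ¬ Flat φ.toMod) := by
  refine ⟨locS H n, phi H n, isLocalization H n, fun h => ?_⟩
  rw [Int.isCoprime_iff_gcd_eq_one] at h
  obtain ⟨p, hp, hpd⟩ := Nat.exists_prime_and_dvd h
  have h1 : (p : ℤ) ∣ (Int.gcd n H.index : ℤ) := Int.natCast_dvd_natCast.2 hpd
  exact not_flat H n p hp (h1.trans (Int.gcd_dvd_left ..))
    (Int.natCast_dvd_natCast.1 (h1.trans (Int.gcd_dvd_right ..)))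

end Pool.Agent.Results.MP_196a0c_al.CoprimeIndex
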